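import Mathlib

/-!
# The largest eigenvalue of the inverse connection matrix can be multiple

`G` is the complex with nine vertices `0, ..., 8` whose facets are the triangles `{0,1,2}`, `{3,4,5}`,
`{6,7,8}` and the edges `{2,3}`, `{5,6}`, `{8,0}`; it has 24 simplices and is connected. The rotation
`v ↦ v + 3` acts on it. The largest eigenvalue `μ = 4.1139...` of `g = L⁻¹` is not attained on rotation
invariant vectors, so that it has multiplicity at least two. All other eigenvalues are `≥ -4`, so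
`μ` is also the spectral radius of `g`.
-/

set_option autoImplicit false

open Matrix

namespace Pool.Agent.Results.MP_5fc97f_co.DoubleTopEigenvalue

section Definitions

variable {V : Type*} [DecidableEq V]

/-- A finite abstract simplicial complex: a finite family of nonempty finite sets which is closed
under taking nonempty subsets. -/
def IsComplex (G : Finset (Finset V)) : Prop :=
  ∀ x ∈ G, x.Nonempty ∧ ∀ y, y ⊆ x → y.Nonempty → y ∈ G

/-- `G` is connected: `G` is not empty and any two simplices are joined by a chain of simplices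
in which consecutive ones intersect. -/
def IsConn (G : Finset (Finset V)) : Prop :=
  G.Nonempty ∧ ∀ x y : G, Relation.ReflTransGen (fun a b : G => (a.1 ∩ b.1).Nonempty) x y

/-- The connection matrix of `G`. -/
def L (G : Finset (Finset V)) : Matrix G G ℝ :=
  Matrix.of fun x y => if (x.1 ∩ y.1).Nonempty then 1 else 0

/-- The Green function matrix `g = L⁻¹`, as an endomorphism of `ℝ^G`. -/
noncomputable def green (G : Finset (Finset V)) : Module.End ℝ (G → ℝ) := Matrix.toLin' (L G)⁻¹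

/-- `μ` is the largest eigenvalue of `g`, also in absolute value, and its multiplicity is at
least two. -/
def IsDoubleTop (G : Finset (Finset V)) (μ : ℝ) : Prop :=
  (∀ ν : ℝ, (green G).HasEigenvalue ν → |ν| ≤ μ) ∧ 2 ≤ Module.finrank ℝ ((green G).eigenspace μ)

end Definitions

/-! ### Tables -/

/-- The simplices. -/
def sxList : List (List (Fin 9)) :=
  [[0],
   [1],
   [2],
   [0, 1],
   [1, 2],
   [0, 2],
   [0, 1, 2],
   [2, 3],
   [3],
   [4],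
   [5],
   [3, 4],
   [4, 5],
   [3, 5],
   [3, 4, 5],
   [5, 6],
   [6],
   [7],
   [8],
   [6, 7],
   [7, 8],
   [6, 8],
   [6, 7, 8],
   [0, 8]]

/-- The simplices. -/
def sx (i : Fin 24) : Finset (Fin 9) := (sxList.getD i []).toFinset

/-- The matrix `g`. -/
def gList : List (List ℤ) :=
  [[-1, 0, 0, 0, -1, 0, 1, 0, 0, 0, 0, 0, 0, 0, 0, 0, 0, 0, -1, 0, 0, 0, 0, 1],
   [0, 0, 0, 0, 0, -1, 1, 0, 0, 0, 0, 0, 0, 0, 0, 0, 0, 0, 0, 0, 0, 0, 0, 0],
   [0, 0, -1, -1, 0, 0, 1, 1, -1, 0, 0, 0, 0, 0, 0, 0, 0, 0, 0, 0, 0, 0, 0, 0],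
   [0, 0, -1, 0, 1, 1, -1, 0, 0, 0, 0, 0, 0, 0, 0, 0, 0, 0, 0, 0, 0, 0, 0, 0],
   [-1, 0, 0, 1, 0, 1, -1, 0, 0, 0, 0, 0, 0, 0, 0, 0, 0, 0, 0, 0, 0, 0, 0, 0],
   [0, -1, 0, 1, 1, 0, -1, 0, 0, 0, 0, 0, 0, 0, 0, 0, 0, 0, 0, 0, 0, 0, 0, 0],
   [1, 1, 1, -1, -1, -1, 1, 0, 0, 0, 0, 0, 0, 0, 0, 0, 0, 0, 0, 0, 0, 0, 0, 0],
   [0, 0, 1, 0, 0, 0, 0, -1, 1, 0, 0, 0, 0, 0, 0, 0, 0, 0, 0, 0, 0, 0, 0, 0],
   [0, 0, -1, 0, 0, 0, 0, 1, -1, 0, 0, 0, -1, 0, 1, 0, 0, 0, 0, 0, 0, 0, 0, 0],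
   [0, 0, 0, 0, 0, 0, 0, 0, 0, 0, 0, 0, 0, -1, 1, 0, 0, 0, 0, 0, 0, 0, 0, 0],
   [0, 0, 0, 0, 0, 0, 0, 0, 0, 0, -1, -1, 0, 0, 1, 1, -1, 0, 0, 0, 0, 0, 0, 0],
   [0, 0, 0, 0, 0, 0, 0, 0, 0, 0, -1, 0, 1, 1, -1, 0, 0, 0, 0, 0, 0, 0, 0, 0],
   [0, 0, 0, 0, 0, 0, 0, 0, -1, 0, 0, 1, 0, 1, -1, 0, 0, 0, 0, 0, 0, 0, 0, 0],
   [0, 0, 0, 0, 0, 0, 0, 0, 0, -1, 0, 1, 1, 0, -1, 0, 0, 0, 0, 0, 0, 0, 0, 0],
   [0, 0, 0, 0, 0, 0, 0, 0, 1, 1, 1, -1, -1, -1, 1, 0, 0, 0, 0, 0, 0, 0, 0, 0],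
   [0, 0, 0, 0, 0, 0, 0, 0, 0, 0, 1, 0, 0, 0, 0, -1, 1, 0, 0, 0, 0, 0, 0, 0],
   [0, 0, 0, 0, 0, 0, 0, 0, 0, 0, -1, 0, 0, 0, 0, 1, -1, 0, 0, 0, -1, 0, 1, 0],
   [0, 0, 0, 0, 0, 0, 0, 0, 0, 0, 0, 0, 0, 0, 0, 0, 0, 0, 0, 0, 0, -1, 1, 0],
   [-1, 0, 0, 0, 0, 0, 0, 0, 0, 0, 0, 0, 0, 0, 0, 0, 0, 0, -1, -1, 0, 0, 1, 1],
   [0, 0, 0, 0, 0, 0, 0, 0, 0, 0, 0, 0, 0, 0, 0, 0, 0, 0, -1, 0, 1, 1, -1, 0],
   [0, 0, 0, 0, 0, 0, 0, 0, 0, 0, 0, 0, 0, 0, 0, 0, -1, 0, 0, 1, 0, 1, -1, 0],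
   [0, 0, 0, 0, 0, 0, 0, 0, 0, 0, 0, 0, 0, 0, 0, 0, 0, -1, 0, 1, 1, 0, -1, 0],
   [0, 0, 0, 0, 0, 0, 0, 0, 0, 0, 0, 0, 0, 0, 0, 0, 1, 1, 1, -1, -1, -1, 1, 0],
   [1, 0, 0, 0, 0, 0, 0, 0, 0, 0, 0, 0, 0, 0, 0, 0, 0, 0, 1, 0, 0, 0, 0, -1]]

/-- The matrix `g`. -/
def g (i j : Fin 24) : ℤ := (gList.getD i []).getD j 0

/-- The connection matrix. -/
def lList : List (List ℤ) :=
  [[1, 0, 0, 1, 0, 1, 1, 0, 0, 0, 0, 0, 0, 0, 0, 0, 0, 0, 0, 0, 0, 0, 0, 1],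
   [0, 1, 0, 1, 1, 0, 1, 0, 0, 0, 0, 0, 0, 0, 0, 0, 0, 0, 0, 0, 0, 0, 0, 0],
   [0, 0, 1, 0, 1, 1, 1, 1, 0, 0, 0, 0, 0, 0, 0, 0, 0, 0, 0, 0, 0, 0, 0, 0],
   [1, 1, 0, 1, 1, 1, 1, 0, 0, 0, 0, 0, 0, 0, 0, 0, 0, 0, 0, 0, 0, 0, 0, 1],
   [0, 1, 1, 1, 1, 1, 1, 1, 0, 0, 0, 0, 0, 0, 0, 0, 0, 0, 0, 0, 0, 0, 0, 0],
   [1, 0, 1, 1, 1, 1, 1, 1, 0, 0, 0, 0, 0, 0, 0, 0, 0, 0, 0, 0, 0, 0, 0, 1],
   [1, 1, 1, 1, 1, 1, 1, 1, 0, 0, 0, 0, 0, 0, 0, 0, 0, 0, 0, 0, 0, 0, 0, 1],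
   [0, 0, 1, 0, 1, 1, 1, 1, 1, 0, 0, 1, 0, 1, 1, 0, 0, 0, 0, 0, 0, 0, 0, 0],
   [0, 0, 0, 0, 0, 0, 0, 1, 1, 0, 0, 1, 0, 1, 1, 0, 0, 0, 0, 0, 0, 0, 0, 0],
   [0, 0, 0, 0, 0, 0, 0, 0, 0, 1, 0, 1, 1, 0, 1, 0, 0, 0, 0, 0, 0, 0, 0, 0],
   [0, 0, 0, 0, 0, 0, 0, 0, 0, 0, 1, 0, 1, 1, 1, 1, 0, 0, 0, 0, 0, 0, 0, 0],
   [0, 0, 0, 0, 0, 0, 0, 1, 1, 1, 0, 1, 1, 1, 1, 0, 0, 0, 0, 0, 0, 0, 0, 0],
   [0, 0, 0, 0, 0, 0, 0, 0, 0, 1, 1, 1, 1, 1, 1, 1, 0, 0, 0, 0, 0, 0, 0, 0],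
   [0, 0, 0, 0, 0, 0, 0, 1, 1, 0, 1, 1, 1, 1, 1, 1, 0, 0, 0, 0, 0, 0, 0, 0],
   [0, 0, 0, 0, 0, 0, 0, 1, 1, 1, 1, 1, 1, 1, 1, 1, 0, 0, 0, 0, 0, 0, 0, 0],
   [0, 0, 0, 0, 0, 0, 0, 0, 0, 0, 1, 0, 1, 1, 1, 1, 1, 0, 0, 1, 0, 1, 1, 0],
   [0, 0, 0, 0, 0, 0, 0, 0, 0, 0, 0, 0, 0, 0, 0, 1, 1, 0, 0, 1, 0, 1, 1, 0],
   [0, 0, 0, 0, 0, 0, 0, 0, 0, 0, 0, 0, 0, 0, 0, 0, 0, 1, 0, 1, 1, 0, 1, 0],
   [0, 0, 0, 0, 0, 0, 0, 0, 0, 0, 0, 0, 0, 0, 0, 0, 0, 0, 1, 0, 1, 1, 1, 1],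
   [0, 0, 0, 0, 0, 0, 0, 0, 0, 0, 0, 0, 0, 0, 0, 1, 1, 1, 0, 1, 1, 1, 1, 0],
   [0, 0, 0, 0, 0, 0, 0, 0, 0, 0, 0, 0, 0, 0, 0, 0, 0, 1, 1, 1, 1, 1, 1, 1],
   [0, 0, 0, 0, 0, 0, 0, 0, 0, 0, 0, 0, 0, 0, 0, 1, 1, 0, 1, 1, 1, 1, 1, 1],
   [0, 0, 0, 0, 0, 0, 0, 0, 0, 0, 0, 0, 0, 0, 0, 1, 1, 1, 1, 1, 1, 1, 1, 1],
   [1, 0, 0, 1, 0, 1, 1, 0, 0, 0, 0, 0, 0, 0, 0, 0, 0, 0, 1, 0, 1, 1, 1, 1]]

/-- The certificate for `g + 4`. -/
def w1List : List ℤ :=
  [1656279750193118810158183273846561714968065884420710253527840,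
   1242209812644839107618637455384921286226049413315532690145880,
   1656279750193118810158183273846561714968065884420710253527840,
   150570886381192619105289388531505610451642353129155477593440,
   1344382914117791242011512397602728664746806724367459621370,
   1908156394231703698338920822403872943511596641037684623880,
   37519929100061589574079903811312108439834765413662338110,
   3756031653719836200634479068301427432620703103843484870,
   3080984490148068404207084212708083331827120518360093580,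
   1242209812644839107618637455384921286226049413315532690145880,
   1656279750193118810158183273846561714968065884420710253527840,
   150570886381192619105289388531505610451642353129155477593440,
   4268634359761136460587539701765640183419004695644660,
   3053784684537787890352074925393649323507466965289608,
   6301268482931524915109250386817934093381694417470910,
   26405055180648165105222959886419003647809563914162,
   5419161724354310376425740280288596098678659790540,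
   1242209812644839107618637455384921286226049413315532690145880,
   278046396142714842283740840684185133050269079970,
   29465726700845503790943709918584570998765022840,
   77301495334510029663254767736845832877269559036,
   1385219809003795587614576864482931755466364190065,
   4477157726766616422189392875792210470717783397756335,
   8527192056210656471437203592155662011286006138517292278991584]

/-- The certificate for `g + 4`. -/
def r1List : List (List ℤ) :=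
  [[3, 0, 0, 0, -1, 0, 1, 0, 0, 0, 0, 0, 0, 0, 0, 0, 0, 0, -1, 0, 0, 0, 0, 1],
   [0, 4, 0, 0, 0, -1, 1, 0, 0, 0, 0, 0, 0, 0, 0, 0, 0, 0, 0, 0, 0, 0, 0, 0],
   [0, 0, 3, -1, 0, 0, 1, 1, -1, 0, 0, 0, 0, 0, 0, 0, 0, 0, 0, 0, 0, 0, 0, 0],
   [0, 0, 0, 11, 3, 3, -2, 1, -1, 0, 0, 0, 0, 0, 0, 0, 0, 0, 0, 0, 0, 0, 0, 0],
   [0, 0, 0, 0, 112, 24, -16, -3, 3, 0, 0, 0, 0, 0, 0, 0, 0, 0, -11, 0, 0, 0, 0, 11],
   [0, 0, 0, 0, 0, 93, -13, -2, 2, 0, 0, 0, 0, 0, 0, 0, 0, 0, 2, 0, 0, 0, 0, -2],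
   [0, 0, 0, 0, 0, 0, 712, -55, 55, 0, 0, 0, 0, 0, 0, 0, 0, 0, 55, 0, 0, 0, 0, -55],
   [0, 0, 0, 0, 0, 0, 0, 1858, 990, 0, 0, 0, 0, 0, 0, 0, 0, 0, 11, 0, 0, 0, 0, -11],
   [0, 0, 0, 0, 0, 0, 0, 0, 1736, 0, 0, 0, -929, 0, 929, 0, 0, 0, -22, 0, 0, 0, 0, 22],
   [0, 0, 0, 0, 0, 0, 0, 0, 0, 4, 0, 0, 0, -1, 1, 0, 0, 0, 0, 0, 0, 0, 0, 0],
   [0, 0, 0, 0, 0, 0, 0, 0, 0, 0, 3, -1, 0, 0, 1, 1, -1, 0, 0, 0, 0, 0, 0, 0],
   [0, 0, 0, 0, 0, 0, 0, 0, 0, 0, 0, 11, 3, 3, -2, 1, -1, 0, 0, 0, 0, 0, 0, 0],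
   [0, 0, 0, 0, 0, 0, 0, 0, 0, 0, 0, 0, 60957, 13888, -5405, -1736, 1736, 0, -242, 0, 0, 0, 0, 242],
   [0, 0, 0, 0, 0, 0, 0, 0, 0, 0, 0, 0, 0, 73405, -11165, -1556, 1556, 0, 64, 0, 0, 0, 0, -64],
   [0, 0, 0, 0, 0, 0, 0, 0, 0, 0, 0, 0, 0, 0, 53712, -4279, 4279, 0, 176, 0, 0, 0, 0, -176],
   [0, 0, 0, 0, 0, 0, 0, 0, 0, 0, 0, 0, 0, 0, 0, 700691, 373549, 0, 176, 0, 0, 0, 0, -176],
   [0, 0, 0, 0, 0, 0, 0, 0, 0, 0, 0, 0, 0, 0, 0, 0, 1308568, 0, -704, 0, -700691, 0, 700691, 704],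
   [0, 0, 0, 0, 0, 0, 0, 0, 0, 0, 0, 0, 0, 0, 0, 0, 0, 4, 0, 0, 0, -1, 1, 0],
   [0, 0, 0, 0, 0, 0, 0, 0, 0, 0, 0, 0, 0, 0, 0, 0, 0, 0, 6828281, -2617136, -1408, 0, 2618544, 3640263],
   [0, 0, 0, 0, 0, 0, 0, 0, 0, 0, 0, 0, 0, 0, 0, 0, 0, 0, 0, 24695988, 6826873, 6828281, -4209737, 3640263],
   [0, 0, 0, 0, 0, 0, 0, 0, 0, 0, 0, 0, 0, 0, 0, 0, 0, 0, 0, 0, 14315395, 3248930, -1319675, -658026],
   [0, 0, 0, 0, 0, 0, 0, 0, 0, 0, 0, 0, 0, 0, 0, 0, 0, 0, 0, 0, 0, 3445368, -533923, -118837],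
   [0, 0, 0, 0, 0, 0, 0, 0, 0, 0, 0, 0, 0, 0, 0, 0, 0, 0, 0, 0, 0, 0, 63377, -8305],
   [0, 0, 0, 0, 0, 0, 0, 0, 0, 0, 0, 0, 0, 0, 0, 0, 0, 0, 0, 0, 0, 0, 0, 1]]

/-- The certificate for `41 - 10 S`, where `S` is `g` on rotation invariant vectors. -/
def w2List : List ℤ :=
  [262528183533229108446063,
   326559447809626451969493,
   104969285699012038563,
   54940256880056793,
   152749589431563863893,
   78208737848513,
   824436900403,
   510333636879417118522983263]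

/-- The certificate for `41 - 10 S`. -/
def r2List : List (List ℤ) :=
  [[51, 0, 10, 0, 10, 0, -10, -10],
   [0, 41, 0, 0, 0, 10, -10, 0],
   [0, 0, 2501, 510, -100, 0, -410, -410],
   [0, 0, 0, 97441, -24010, -25010, 29110, 4100],
   [0, 0, 0, 0, 1791, -610, 710, 100],
   [0, 0, 0, 0, 0, 2331371, 1495610, 82000],
   [0, 0, 0, 0, 0, 0, 6965901, -12344200],
   [0, 0, 0, 0, 0, 0, 0, 1]]

/-- The test vector. -/
def tvList : List ℤ := [-1, -1, 0, 1, 1, 1, -2, -1, -3, -4, -4, 6, 6, 6, -9, 0, 4, 4, 4, -7, -7, -7, 11, 1]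

/-- The test vector. -/
def tv (i : Fin 24) : ℤ := tvList.getD i 0

/-- The complex. -/
def G : Finset (Finset (Fin 9)) := Finset.univ.image sx

lemma sx_nonempty : ∀ i : Fin 24, (sx i).Nonempty := by decide +kernel

lemma sx_erase : ∀ i : Fin 24, ∀ a ∈ sx i, ((sx i).erase a).Nonempty →
    ∃ j, sx j = (sx i).erase a := by
  decide +kernel

lemma isComplex_G : IsComplex G := by
  intro x hx
  refine ⟨?_, ?_⟩
  · obtain ⟨i, -, rfl⟩ := Finset.mem_image.1 hx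
    exact sx_nonempty i
  · induction x using Finset.strongInduction with
    | H x ih =>
      intro y hy hne
      rcases eq_or_ne y x with rfl | hyx
      · exact hx
      · obtain ⟨a, hax, hay⟩ := Finset.exists_of_ssubset (lt_of_le_of_ne hy hyx)
        have h1 : y ⊆ x.erase a := Finset.subset_erase.2 ⟨hy, hay⟩
        refine ih (x.erase a) (Finset.erase_ssubset hax) ?_ y h1 hne
        obtain ⟨i, -, rfl⟩ := Finset.mem_image.1 hx
        obtain ⟨j, hj⟩ := sx_erase i a hax (hne.mono h1)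
        rw [← hj]
        exact Finset.mem_image_of_mem _ (Finset.mem_univ j)

lemma sx_inj : ∀ i j : Fin 24, sx i = sx j → i = j := by decide +kernel

/-- `L` in terms of the indices. -/
def Lz (i j : Fin 24) : ℤ := if (sx i ∩ sx j).Nonempty then 1 else 0

lemma Lz_eq : ∀ i j : Fin 24, Lz i j = (lList.getD i []).getD j 0 := by decide +kernel

lemma table_mul_g : ∀ i j : Fin 24,
    ∑ k : Fin 24, (lList.getD i []).getD k 0 * g k j = if i = j then 1 else 0 := by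
  decide +kernel

lemma Lz_mul_g (i j : Fin 24) : ∑ k, Lz i k * g k j = if i = j then 1 else 0 := by
  rw [← table_mul_g i j]
  exact Finset.sum_congr rfl fun k _ => by rw [Lz_eq]

lemma g_symm : ∀ i j : Fin 24, g i j = g j i := by decide +kernel

/-- The rotation. -/
def rot (i : Fin 24) : Fin 24 := i + 8

lemma g_rot : ∀ i j : Fin 24, g (rot i) (rot j) = g i j := by decide +kernel

lemma cert1 : ∀ i j : Fin 24, 4968839250579356430474549821539685144904197653262130760583520 * (g i j + if i = j then 4 else 0) =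
    ∑ k : Fin 24, w1List.getD k 0 * (r1List.getD k []).getD i 0 * (r1List.getD k []).getD j 0 := by
  decide +kernel

/-- `g` on rotation invariant vectors. -/
def S (i j : Fin 8) : ℤ :=
  g ⟨i, by omega⟩ ⟨j, by omega⟩ + g ⟨i, by omega⟩ ⟨j + 8, by omega⟩ + g ⟨i, by omega⟩ ⟨j + 16, by omega⟩

lemma cert2 : ∀ i j : Fin 8, 13388937360194684530749213 * ((if i = j then 41 else 0) - 10 * S i j) =
    ∑ k : Fin 8, w2List.getD k 0 * (r2List.getD k []).getD i 0 * (r2List.getD k []).getD j 0 := by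
  decide +kernel

lemma tv_test : 41 * ∑ i, tv i * tv i < 10 * ∑ i, ∑ j, g i j * tv i * tv j := by
  decide +kernel

/-! ### Positive semidefinite forms from certificates -/

lemma psd_of_cert {ι κ : Type*} [Fintype ι] [Fintype κ] (M : ι → ι → ℤ) (w : κ → ℤ)
    (hw : ∀ k, 0 ≤ w k) (N : ℤ) (hN : 0 < N) (r : κ → ι → ℤ)
    (h : ∀ i j, N * M i j = ∑ k, w k * r k i * r k j) (v : ι → ℝ) :
    0 ≤ ∑ i, ∑ j, (M i j : ℝ) * v i * v j := by
  have h1 : (N : ℝ) * ∑ i, ∑ j, (M i j : ℝ) * v i * v j =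
      ∑ k, (w k : ℝ) * (∑ i, (r k i : ℝ) * v i) ^ 2 := by
    have h2 : ∀ k, (w k : ℝ) * (∑ i, (r k i : ℝ) * v i) ^ 2 =
        ∑ i, ∑ j, (w k : ℝ) * (r k i) * (r k j) * v i * v j := by
      intro k
      rw [sq, Finset.sum_mul_sum, Finset.mul_sum]
      refine Finset.sum_congr rfl fun i _ => ?_
      rw [Finset.mul_sum]
      refine Finset.sum_congr rfl fun j _ => ?_
      ring
    have h5 : ∑ k, ∑ i, ∑ j, (w k : ℝ) * (r k i) * (r k j) * v i * v j =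
        ∑ i, ∑ j, ∑ k, (w k : ℝ) * (r k i) * (r k j) * v i * v j := by
      rw [Finset.sum_comm]
      refine Finset.sum_congr rfl fun i _ => ?_
      rw [Finset.sum_comm]
    rw [Finset.sum_congr rfl fun k _ => h2 k, h5, Finset.mul_sum]
    refine Finset.sum_congr rfl fun i _ => ?_
    rw [Finset.mul_sum]
    refine Finset.sum_congr rfl fun j _ => ?_
    have h3 : (N : ℝ) * M i j = ∑ k, (w k : ℝ) * r k i * r k j := by
      exact_mod_cast h i j
    rw [← mul_assoc, ← mul_assoc, h3, Finset.sum_mul, Finset.sum_mul]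
  have h4 : 0 ≤ (N : ℝ) * ∑ i, ∑ j, (M i j : ℝ) * v i * v j := by
    rw [h1]
    exact Finset.sum_nonneg fun k _ => mul_nonneg (by exact_mod_cast hw k) (sq_nonneg _)
  exact nonneg_of_mul_nonneg_right h4 (by exact_mod_cast hN)

/-! ### The top of the spectrum of a symmetric matrix -/

lemma exists_top {n : Type*} [Fintype n] [DecidableEq n] [Nonempty n] (A : Matrix n n ℝ)
    (hA : A.IsHermitian) :
    ∃ (μ : ℝ) (v : n → ℝ), v ≠ 0 ∧ A *ᵥ v = μ • v ∧ ∀ w : n → ℝ, w ⬝ᵥ (A *ᵥ w) ≤ μ * (w ⬝ᵥ w) := by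
  obtain ⟨i0, hi0⟩ := Finite.exists_max hA.eigenvalues
  refine ⟨hA.eigenvalues i0, (hA.eigenvectorBasis i0).ofLp, ?_, ?_, ?_⟩
  · intro h
    have h1 : hA.eigenvectorBasis i0 = 0 := by
      ext j
      exact congrFun h j
    have h2 := hA.eigenvectorBasis.orthonormal.1 i0
    rw [h1, norm_zero] at h2
    exact one_ne_zero h2.symm
  · exact hA.mulVec_eigenvectorBasis i0
  · intro w
    let x : EuclideanSpace ℝ n := WithLp.toLp 2 w
    let y : EuclideanSpace ℝ n := WithLp.toLp 2 (A *ᵥ w)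
    have hxy : w ⬝ᵥ (A *ᵥ w) = inner ℝ x y := by
      rw [EuclideanSpace.inner_eq_star_dotProduct, dotProduct_comm]
      simp [x, y]
    have hxx : w ⬝ᵥ w = inner ℝ x x := by
      rw [EuclideanSpace.inner_eq_star_dotProduct]
      simp [x]
    have hy : ∀ i, inner ℝ (hA.eigenvectorBasis i) y =
        hA.eigenvalues i * inner ℝ (hA.eigenvectorBasis i) x := by
      intro i
      rw [EuclideanSpace.inner_eq_star_dotProduct, EuclideanSpace.inner_eq_star_dotProduct]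
      simp only [x, y, star_trivial]
      rw [dotProduct_comm, dotProduct_mulVec, ← mulVec_transpose,
        show Aᵀ = A from hA, hA.mulVec_eigenvectorBasis i, smul_dotProduct, smul_eq_mul,
        dotProduct_comm]
    rw [hxy, hxx, ← hA.eigenvectorBasis.sum_inner_mul_inner x y,
      ← hA.eigenvectorBasis.sum_inner_mul_inner x x, Finset.mul_sum]
    refine Finset.sum_le_sum fun i _ => ?_
    rw [hy i, real_inner_comm (hA.eigenvectorBasis i) x]
    nlinarith [hi0 i, mul_self_nonneg (inner ℝ (hA.eigenvectorBasis i) x : ℝ)]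

/-! ### The matrix `g` over the reals -/

/-- The matrix `g` over the reals. -/
def gR : Matrix (Fin 24) (Fin 24) ℝ := Matrix.of fun i j => (g i j : ℝ)

lemma gR_herm : gR.IsHermitian := by
  ext i j
  simp [gR, g_symm i j]

lemma quad (v : Fin 24 → ℝ) : v ⬝ᵥ (gR *ᵥ v) = ∑ i, ∑ j, (g i j : ℝ) * v i * v j := by
  simp only [dotProduct, mulVec, gR, Matrix.of_apply, Finset.mul_sum]
  refine Finset.sum_congr rfl fun i _ => Finset.sum_congr rfl fun j _ => ?_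
  ring

lemma lower (v : Fin 24 → ℝ) : -4 * (v ⬝ᵥ v) ≤ v ⬝ᵥ (gR *ᵥ v) := by
  have h := psd_of_cert (fun i j : Fin 24 => g i j + if i = j then 4 else 0)
    (fun k : Fin 24 => w1List.getD k 0) (by decide +kernel) 4968839250579356430474549821539685144904197653262130760583520 (by norm_num)
    (fun k i => (r1List.getD k []).getD i 0) cert1 v
  have h2 : ∑ i, ∑ j, (((g i j + if i = j then 4 else 0 : ℤ)) : ℝ) * v i * v j =
      v ⬝ᵥ (gR *ᵥ v) + 4 * (v ⬝ᵥ v) := by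
    rw [quad, dotProduct, Finset.mul_sum, ← Finset.sum_add_distrib]
    refine Finset.sum_congr rfl fun i _ => ?_
    have h3 : ∀ j, (((g i j + if i = j then 4 else 0 : ℤ)) : ℝ) * v i * v j =
        (g i j : ℝ) * v i * v j + if i = j then 4 * (v i * v j) else 0 := by
      intro j
      split_ifs <;> push_cast <;> ring
    simp_rw [h3]
    rw [Finset.sum_add_distrib, Finset.sum_ite_eq]
    simp
  rw [h2] at h
  linarith

lemma tvR : (41 / 10 : ℝ) * ((fun i => (tv i : ℝ)) ⬝ᵥ fun i => (tv i : ℝ)) <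
    (fun i => (tv i : ℝ)) ⬝ᵥ (gR *ᵥ fun i => (tv i : ℝ)) := by
  have h : (41 : ℝ) * ∑ i, (tv i : ℝ) * tv i < 10 * ∑ i, ∑ j, (g i j : ℝ) * tv i * tv j := by
    exact_mod_cast tv_test
  rw [quad, dotProduct]
  linarith

lemma upper_S (u : Fin 8 → ℝ) : ∑ i, ∑ j, (S i j : ℝ) * u i * u j ≤ (41 / 10 : ℝ) * (u ⬝ᵥ u) := by
  have h := psd_of_cert (fun i j : Fin 8 => (if i = j then 41 else 0) - 10 * S i j)
    (fun k : Fin 8 => w2List.getD k 0) (by decide +kernel) 13388937360194684530749213 (by norm_num)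
    (fun k i => (r2List.getD k []).getD i 0) cert2 u
  have h2 : ∑ i, ∑ j, ((((if i = j then 41 else 0) - 10 * S i j : ℤ)) : ℝ) * u i * u j =
      41 * (u ⬝ᵥ u) - 10 * ∑ i, ∑ j, (S i j : ℝ) * u i * u j := by
    rw [dotProduct, Finset.mul_sum, Finset.mul_sum, ← Finset.sum_sub_distrib]
    refine Finset.sum_congr rfl fun i _ => ?_
    have h3 : ∀ j, ((((if i = j then 41 else 0) - 10 * S i j : ℤ)) : ℝ) * u i * u j =
        (if i = j then 41 * (u i * u j) else 0) - 10 * ((S i j : ℝ) * u i * u j) := by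
      intro j
      split_ifs <;> push_cast <;> ring
    simp_rw [h3]
    rw [Finset.sum_sub_distrib, Finset.sum_ite_eq, Finset.mul_sum]
    simp
  rw [h2] at h
  linarith

/-! ### Rotation -/

/-- The sum over the three blocks. -/
def blk (v : Fin 24 → ℝ) (t : Fin 8) : ℝ :=
  v ⟨t, by omega⟩ + v ⟨t + 8, by omega⟩ + v ⟨t + 16, by omega⟩

lemma sum24 (f : Fin 24 → ℝ) :
    ∑ j, f j = ∑ t : Fin 8, (f ⟨t, by omega⟩ + f ⟨t + 8, by omega⟩ + f ⟨t + 16, by omega⟩) := by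
  simp only [Fin.sum_univ_succ, Fin.sum_univ_zero]
  simp
  ring

lemma S_rows : ∀ (s t : Fin 8) , (∀ (b : Fin 3),
    g ⟨s, by omega⟩ ⟨t + 8 * b, by omega⟩ + g ⟨s + 8, by omega⟩ ⟨t + 8 * b, by omega⟩ +
      g ⟨s + 16, by omega⟩ ⟨t + 8 * b, by omega⟩ = S s t) := by
  decide +kernel

lemma blk_eigen {v : Fin 24 → ℝ} {μ : ℝ} (h : gR *ᵥ v = μ • v) (s : Fin 8) :
    ∑ t, (S s t : ℝ) * blk v t = μ * blk v s := by
  have h1 : ∀ i, ∑ j, (g i j : ℝ) * v j = μ * v i := fun i => congrFun h i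
  have h2 : μ * blk v s = ∑ j, ((g ⟨s, by omega⟩ j + g ⟨s + 8, by omega⟩ j +
      g ⟨s + 16, by omega⟩ j : ℤ) : ℝ) * v j := by
    rw [blk, mul_add, mul_add, ← h1, ← h1, ← h1, ← Finset.sum_add_distrib,
      ← Finset.sum_add_distrib]
    refine Finset.sum_congr rfl fun j _ => ?_
    push_cast
    ring
  rw [h2, sum24]
  refine Finset.sum_congr rfl fun t _ => ?_
  have e0 := S_rows s t 0
  have e1 := S_rows s t 1
  have e2 := S_rows s t 2
  simp only [Fin.val_zero, Fin.val_one, Fin.val_two, mul_zero, mul_one, add_zero,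
    show 8 * 2 = 16 from rfl] at e0 e1 e2
  rw [e0, e1, e2, blk]
  ring

lemma blk_eq_zero {v : Fin 24 → ℝ} {μ : ℝ} (hμ : 41 / 10 < μ) (h : gR *ᵥ v = μ • v) :
    blk v = 0 := by
  have h1 := upper_S (blk v)
  have h2 : ∑ i, ∑ j, (S i j : ℝ) * blk v i * blk v j = μ * (blk v ⬝ᵥ blk v) := by
    rw [dotProduct, Finset.mul_sum]
    refine Finset.sum_congr rfl fun i _ => ?_
    rw [← mul_assoc, ← blk_eigen h i, Finset.sum_mul]
    refine Finset.sum_congr rfl fun j _ => ?_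
    ring
  rw [h2] at h1
  have h3 : 0 ≤ blk v ⬝ᵥ blk v := Finset.sum_nonneg fun i _ => mul_self_nonneg _
  have h4 : blk v ⬝ᵥ blk v = 0 := by nlinarith
  exact dotProduct_self_eq_zero.1 h4

/-- The rotated vector. -/
def rv (v : Fin 24 → ℝ) (i : Fin 24) : ℝ := v (rot i)

lemma rot_bij : Function.Bijective rot := by decide +kernel

lemma rv_eigen {v : Fin 24 → ℝ} {μ : ℝ} (h : gR *ᵥ v = μ • v) : gR *ᵥ rv v = μ • rv v := by
  ext i
  have h1 : ∑ j, (g (rot i) j : ℝ) * v j = μ * v (rot i) := congrFun h (rot i)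
  change ∑ j, (g i j : ℝ) * v (rot j) = μ * v (rot i)
  rw [← h1, ← rot_bij.sum_comp fun j => (g (rot i) j : ℝ) * v j]
  refine Finset.sum_congr rfl fun j _ => ?_
  rw [g_rot]

lemma rot3 : ∀ i : Fin 24, ∃ t : Fin 8,
    (i = ⟨t, by omega⟩ ∧ rot i = ⟨t + 8, by omega⟩ ∧ rot (rot i) = ⟨t + 16, by omega⟩) ∨
    (i = ⟨t + 8, by omega⟩ ∧ rot i = ⟨t + 16, by omega⟩ ∧ rot (rot i) = ⟨t, by omega⟩) ∨
    (i = ⟨t + 16, by omega⟩ ∧ rot i = ⟨t, by omega⟩ ∧ rot (rot i) = ⟨t + 8, by omega⟩) := by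
  decide +kernel

lemma rot_sum {v : Fin 24 → ℝ} (h : blk v = 0) (i : Fin 24) :
    v i + v (rot i) + v (rot (rot i)) = 0 := by
  obtain ⟨t, ⟨h1, h2, h3⟩ | ⟨h1, h2, h3⟩ | ⟨h1, h2, h3⟩⟩ := rot3 i <;>
  · have h4 : blk v t = 0 := congrFun h t
    rw [blk] at h4
    rw [h3, h2, h1]
    linarith

lemma rot_rot_rot : ∀ i : Fin 24, rot (rot (rot i)) = i := by decide +kernel

/-- `v` and the rotated vector are linearly independent. -/
lemma indep {v : Fin 24 → ℝ} (hv : v ≠ 0) (h : blk v = 0) {a b : ℝ} (hab : a • v + b • rv v = 0) :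
    a = 0 ∧ b = 0 := by
  obtain ⟨i, hi⟩ : ∃ i, v i ≠ 0 := by
    by_contra hall
    push Not at hall
    exact hv (funext hall)
  have e1 : a * v i + b * v (rot i) = 0 := congrFun hab i
  have e2 : a * v (rot i) + b * v (rot (rot i)) = 0 := congrFun hab (rot i)
  have e3 : a * v (rot (rot i)) + b * v (rot (rot (rot i))) = 0 := congrFun hab (rot (rot i))
  rw [rot_rot_rot] at e3
  have e4 := rot_sum h i
  set x := v i
  set y := v (rot i)
  have hz : v (rot (rot i)) = -x - y := by linarith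
  rw [hz] at e2 e3
  -- `a x + b y = 0`, `a y - b (x + y) = 0`; the determinant is `-(x^2 + x y + y^2)`
  have hd : 0 < x ^ 2 + x * y + y ^ 2 := by
    have : x ^ 2 + x * y + y ^ 2 = (y + x / 2) ^ 2 + 3 / 4 * x ^ 2 := by ring
    rw [this]
    positivity
  have ha : a * (x ^ 2 + x * y + y ^ 2) = 0 := by linear_combination (x + y) * e1 + y * e2
  have hb : b * (x ^ 2 + x * y + y ^ 2) = 0 := by linear_combination y * e1 - x * e2
  exact ⟨(mul_eq_zero.1 ha).resolve_right hd.ne', (mul_eq_zero.1 hb).resolve_right hd.ne'⟩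

/-! ### The complex -/

/-- The enumeration of the simplices. -/
noncomputable def e : Fin 24 ≃ G :=
  Equiv.ofBijective (fun i => ⟨sx i, Finset.mem_image_of_mem _ (Finset.mem_univ i)⟩)
    ⟨fun i j hij => sx_inj i j (congrArg Subtype.val hij), fun x => by
      obtain ⟨i, -, hi⟩ := Finset.mem_image.1 x.2
      exact ⟨i, Subtype.ext hi⟩⟩

lemma e_coe (i : Fin 24) : ((e i : G) : Finset (Fin 9)) = sx i := rfl

/-- The triangle of the block of `i`. -/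
def hub (i : Fin 24) : Fin 24 := ⟨8 * (i / 8) + 6, by omega⟩

lemma hub_meet : ∀ i : Fin 24, (sx i ∩ sx (hub i)).Nonempty := by decide +kernel

lemma step1 : ∀ i : Fin 24, (sx (hub i) ∩ sx (hub i + 1)).Nonempty := by decide +kernel

lemma step2 : ∀ i : Fin 24, (sx (hub i + 1) ∩ sx (hub (rot i))).Nonempty := by decide +kernel

lemma hub_rot : ∀ i j : Fin 24, hub j = hub i ∨ hub j = hub (rot i) ∨ hub j = hub (rot (rot i)) := by
  decide +kernel

lemma isConn_G : IsConn G := by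
  refine ⟨⟨_, Finset.mem_image_of_mem _ (Finset.mem_univ 0)⟩, fun x y => ?_⟩
  obtain ⟨i, rfl⟩ := e.surjective x
  obtain ⟨j, rfl⟩ := e.surjective y
  have r : ∀ i j : Fin 24, (sx i ∩ sx j).Nonempty →
      Relation.ReflTransGen (fun a b : G => (a.1 ∩ b.1).Nonempty) (e i) (e j) :=
    fun i j h => Relation.ReflTransGen.single h
  have s : ∀ i : Fin 24, Relation.ReflTransGen (fun a b : G => (a.1 ∩ b.1).Nonempty)
      (e (hub i)) (e (hub (rot i))) := fun i => (r _ _ (step1 i)).trans (r _ _ (step2 i))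
  have t : Relation.ReflTransGen (fun a b : G => (a.1 ∩ b.1).Nonempty) (e (hub j)) (e j) :=
    r _ _ (by rw [Finset.inter_comm]; exact hub_meet j)
  refine ((r _ _ (hub_meet i)).trans ?_).trans t
  rcases hub_rot i j with h | h | h
  · rw [h]
  · rw [h]
    exact s i
  · rw [h]
    exact (s i).trans (s (rot i))

lemma L_mul : L G * gR.submatrix e.symm e.symm = 1 := by
  have h1 : L G = (Matrix.of fun i j => (Lz i j : ℝ) : Matrix (Fin 24) (Fin 24) ℝ).submatrix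
      e.symm e.symm := by
    ext x y
    obtain ⟨i, rfl⟩ := e.surjective x
    obtain ⟨j, rfl⟩ := e.surjective y
    simp only [L, Matrix.of_apply, Matrix.submatrix_apply, Equiv.symm_apply_apply, Lz, e_coe]
    by_cases h : (sx i ∩ sx j).Nonempty <;> simp [h]
  rw [h1, Matrix.submatrix_mul_equiv]
  have h2 : (Matrix.of fun i j => (Lz i j : ℝ) : Matrix (Fin 24) (Fin 24) ℝ) * gR = 1 := by
    ext i j
    rw [Matrix.mul_apply, Matrix.one_apply]
    simp only [Matrix.of_apply, gR]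
    have := Lz_mul_g i j
    have h3 : (∑ k, (Lz i k : ℝ) * (g k j : ℝ)) = ((if i = j then 1 else 0 : ℤ) : ℝ) := by
      exact_mod_cast this
    rw [h3]
    split_ifs <;> simp
  rw [h2, Matrix.submatrix_one_equiv]

lemma L_inv : (L G)⁻¹ = gR.submatrix e.symm e.symm := Matrix.inv_eq_right_inv L_mul

lemma mulVec_e (v : Fin 24 → ℝ) : (L G)⁻¹ *ᵥ (v ∘ e.symm) = (gR *ᵥ v) ∘ e.symm := by
  rw [L_inv, Matrix.submatrix_mulVec_equiv]
  congr 2
  ext i
  simp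

/-- **Negative answer to Q1.** There is a connected finite abstract simplicial complex for which the
largest eigenvalue `μ` of the inverse connection matrix has multiplicity at least two; moreover
`|ν| ≤ μ` for all eigenvalues `ν`. -/
theorem result : ∃ G : Finset (Finset (Fin 9)), IsComplex G ∧ IsConn G ∧ IsUnit (L G) ∧
    ∃ μ : ℝ, IsDoubleTop G μ := by
  refine ⟨G, isComplex_G, isConn_G, IsUnit.of_mul_eq_one _ L_mul, ?_⟩
  obtain ⟨μ, v, hv, hμv, hmax⟩ := exists_top gR gR_herm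
  have hμ : 41 / 10 < μ := by
    have h1 := lt_of_lt_of_le tvR (hmax fun i => (tv i : ℝ))
    have h2 : 0 ≤ ((fun i => (tv i : ℝ)) ⬝ᵥ fun i => (tv i : ℝ)) :=
      Finset.sum_nonneg fun i _ => mul_self_nonneg _
    by_contra hle
    push Not at hle
    nlinarith
  refine ⟨μ, ?_, ?_⟩
  · intro ν hν
    obtain ⟨x, hx⟩ := hν.exists_hasEigenvector
    have hx1 : (L G)⁻¹ *ᵥ x = ν • x := by
      have := hx.apply_eq_smul
      rwa [green, Matrix.toLin'_apply] at this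
    set y : Fin 24 → ℝ := x ∘ e with hy
    have hxy : x = y ∘ e.symm := by
      funext a
      simp [hy]
    have hy1 : gR *ᵥ y = ν • y := by
      rw [hxy, mulVec_e] at hx1
      funext i
      have := congrFun hx1 (e i)
      simpa using this
    have hy0 : y ≠ 0 := by
      intro h0
      apply hx.2
      rw [hxy, h0]
      rfl
    have hyy : 0 < y ⬝ᵥ y := by
      have h1 : 0 ≤ y ⬝ᵥ y := Finset.sum_nonneg fun i _ => mul_self_nonneg _
      exact lt_of_le_of_ne h1 fun h => hy0 (dotProduct_self_eq_zero.1 h.symm)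
    have h1 := hmax y
    have h2 := lower y
    rw [hy1, dotProduct_smul, smul_eq_mul] at h1 h2
    have h3 : ν ≤ μ := le_of_mul_le_mul_right h1 hyy
    have h4 : -4 ≤ ν := le_of_mul_le_mul_right h2 hyy
    rw [abs_le]
    exact ⟨by linarith, h3⟩
  · have hb := blk_eq_zero hμ hμv
    have m1 : v ∘ e.symm ∈ (green G).eigenspace μ := by
      rw [Module.End.mem_eigenspace_iff, green, Matrix.toLin'_apply, mulVec_e, hμv]
      rfl
    have m2 : rv v ∘ e.symm ∈ (green G).eigenspace μ := by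
      rw [Module.End.mem_eigenspace_iff, green, Matrix.toLin'_apply, mulVec_e, rv_eigen hμv]
      rfl
    have li : LinearIndependent ℝ
        ![(⟨_, m1⟩ : (green G).eigenspace μ), ⟨_, m2⟩] := by
      rw [LinearIndependent.pair_iff]
      intro a b hab
      apply indep hv hb
      funext i
      have h1 := congrArg Subtype.val hab
      have h2 := congrFun h1 (e i)
      simpa using h2
    have := li.fintype_card_le_finrank
    simpa using this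

end Pool.Agent.Results.MP_5fc97f_co.DoubleTopEigenvalue
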